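import Pool.Agent.Helper82.PN.Goals

/-!
# Moving one point in general position (goal SWP of project PN)
-/

open MeasureTheory Set
open Pool.Agent.Helper47.AQ
open Pool.Agent.Helper82.PN

noncomputable section

namespace Pool.Agent.Helper98.PN

variable {ι σ : Type}

theorem mv_apply [DecidableEq σ] (x : σ → ι → ℝ) (j : σ) (v : ι → ℝ) (t : ℝ) (i : σ) :
    mv x j v t i = x i + (if i = j then t else 0) • v := by
  classical
  unfold mv
  by_cases h : i = j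
  · subst h
    simp
  · simp [Function.update, h]

theorem sum_mv [Fintype σ] (x : σ → ι → ℝ) (j : σ) (v : ι → ℝ) (t : ℝ) (μ : σ → ℝ) :
    ∑ i, μ i • mv x j v t i = ∑ i, μ i • x i + (t * μ j) • v := by
  classical
  have h : ∀ i, μ i • mv x j v t i = μ i • x i + (if i = j then (t * μ j) • v else 0) := by
    intro i
    rw [mv_apply, smul_add]
    by_cases h : i = j
    · subst h
      simp [smul_smul, mul_comm]
    · simp [h]
  simp only [h]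
  rw [Finset.sum_add_distrib]
  simp

theorem mem_KH [Fintype σ] (w : σ → ι → ℝ) (z : ι → ℝ) :
    z ∈ KH w ↔ ∃ μ ∈ stdSimplex ℝ σ, z = ∑ i, μ i • w i := by
  classical
  constructor
  · intro hz
    let L : (σ → ℝ) →ₗ[ℝ] (ι → ℝ) :=
      ∑ i, (LinearMap.proj i : (σ → ℝ) →ₗ[ℝ] ℝ).smulRight (w i)
    have hL : ∀ μ, L μ = ∑ i, μ i • w i := by
      intro μ
      simp [L, LinearMap.sum_apply]
    have hsub : KH w ⊆ L '' stdSimplex ℝ σ := by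
      refine convexHull_min ?_ ((convex_stdSimplex ℝ σ).linear_image L)
      rintro _ ⟨i, rfl⟩
      refine ⟨Pi.single i 1, single_mem_stdSimplex ℝ i, ?_⟩
      rw [hL]
      rw [Finset.sum_eq_single i]
      · simp
      · intro b _ hb
        simp [hb]
      · intro h
        exact absurd (Finset.mem_univ _) h
    obtain ⟨μ, hμ, rfl⟩ := hsub hz
    exact ⟨μ, hμ, hL μ⟩
  · rintro ⟨μ, hμ, rfl⟩
    exact (convex_convexHull ℝ (range w)).sum_mem (fun i _ => hμ.1 i) hμ.2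
      (fun i _ => subset_convexHull ℝ _ ⟨i, rfl⟩)

theorem mem_KH_mv [Fintype σ] (x : σ → ι → ℝ) (j : σ) (v : ι → ℝ) (t : ℝ) (z : ι → ℝ) :
    z ∈ KH (mv x j v t) ↔ ∃ μ ∈ stdSimplex ℝ σ, z = ∑ i, μ i • x i + (t * μ j) • v := by
  rw [mem_KH]
  simp only [sum_mv]

theorem mv_neg (x : σ → ι → ℝ) (j : σ) (v : ι → ℝ) (t : ℝ) :
    mv x j (-v) t = mv x j v (-t) := by
  unfold mv
  simp

theorem gSWP : TOPL → SWP := by
  intro hT ι σ _ _ x j v t₀ t₁ ρ hv ht hρ0 hρ1 hgen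
  classical
  set t : ℝ := (1 - ρ) * t₀ + ρ * t₁ with htdef
  have htI : t ∈ Icc t₀ t₁ := by
    constructor <;> rw [htdef] <;> nlinarith
  refine ⟨?_, ?_, ?_, ?_⟩
  · intro z hz
    rw [mem_KH_mv] at hz
    obtain ⟨μ, hμ, rfl⟩ := hz
    refine ⟨∑ i, μ i • x i + (t₀ * μ j) • v, (mem_KH_mv _ _ _ _ _).2 ⟨μ, hμ, rfl⟩,
      ∑ i, μ i • x i + (t₁ * μ j) • v, (mem_KH_mv _ _ _ _ _).2 ⟨μ, hμ, rfl⟩,
      ⟨t₀ * μ j - t₁ * μ j, ?_⟩, ?_⟩
    · rw [sub_smul]; abel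
    · rw [htdef]
      module
  · intro y₀ hy₀ y₁ hy₁ hline
    obtain ⟨a, ha⟩ := hline
    rw [mem_KH_mv] at hy₀ hy₁
    obtain ⟨μ₀, hμ₀, hy₀⟩ := hy₀
    obtain ⟨μ₁, hμ₁, hy₁⟩ := hy₁
    obtain ⟨i₀, hi₀⟩ : ∃ i, v i ≠ 0 := by
      by_contra h
      push Not at h
      exact hv (funext h)
    let ℓ : (ι → ℝ) →ₗ[ℝ] ℝ := (v i₀)⁻¹ • (LinearMap.proj i₀ : (ι → ℝ) →ₗ[ℝ] ℝ)
    have hℓ : ℓ v = 1 := by
      simp [ℓ, hi₀]
    have e0 : ∑ i, μ₀ i • x i = y₀ + (-(t₀ * μ₀ j)) • v := by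
      rw [hy₀]; module
    have hy1' : y₁ = y₀ + (-a) • v := by
      rw [neg_smul, ← ha]; abel
    have e1 : ∑ i, μ₁ i • x i = y₀ + (-a - t₁ * μ₁ j) • v := by
      have : ∑ i, μ₁ i • x i = y₁ + (-(t₁ * μ₁ j)) • v := by rw [hy₁]; module
      rw [this, hy1']; module
    obtain ⟨m, hm, ⟨b, hb⟩, hmax⟩ := hT ι σ x j v y₀ t₀ t₁ ℓ ht hℓ hgen ⟨μ₀, hμ₀, _, e0⟩
    obtain ⟨k, hk, ⟨c, hc⟩, hmin⟩ := hT ι σ x j (-v) y₀ (-t₁) (-t₀) (-ℓ) (by linarith)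
      (by simp [hℓ]) (by
        intro s hs
        rw [mv_neg]
        exact hgen _ ⟨by linarith [hs.2], by linarith [hs.1]⟩)
      ⟨μ₀, hμ₀, t₀ * μ₀ j, by rw [e0]; module⟩
    have hM0 := hmax μ₀ hμ₀ ⟨_, e0⟩ t₀ ⟨le_refl _, ht.le⟩
    have hM1 := hmax μ₁ hμ₁ ⟨_, e1⟩ t₁ ⟨ht.le, le_refl _⟩
    have hN0 := hmin μ₀ hμ₀ ⟨t₀ * μ₀ j, by rw [e0]; module⟩ (-t₀) ⟨by linarith, le_refl _⟩
    have hN1 := hmin μ₁ hμ₁ ⟨a + t₁ * μ₁ j, by rw [e1]; module⟩ (-t₁) ⟨le_refl _, by linarith⟩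
    simp only [e0, e1, hb, hc, map_add, map_smul, LinearMap.neg_apply, map_neg, hℓ,
      smul_eq_mul] at hM0 hM1 hN0 hN1
    have hconv : Convex ℝ {s : ℝ | y₀ + s • v ∈ KH (mv x j v t)} := by
      have hK : Convex ℝ (KH (mv x j v t)) := convex_convexHull ℝ _
      intro s hs s' hs' p q hp hq hpq
      have := hK hs hs' hp hq hpq
      have h2 : y₀ + (p • s + q • s') • v = p • (y₀ + s • v) + q • (y₀ + s' • v) := by
        have : y₀ = (p + q) • y₀ := by rw [hpq, one_smul]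
        nth_rewrite 1 [this]
        simp only [smul_eq_mul]
        module
      show y₀ + (p • s + q • s') • v ∈ KH (mv x j v t)
      rw [h2]; exact this
    have hoc := hconv.ordConnected
    have hmemM : (b + t * m j) ∈ {s : ℝ | y₀ + s • v ∈ KH (mv x j v t)} := by
      show y₀ + (b + t * m j) • v ∈ KH (mv x j v t)
      rw [mem_KH_mv]
      refine ⟨m, hm, ?_⟩
      rw [hb]; module
    have hmemK : (-c + t * k j) ∈ {s : ℝ | y₀ + s • v ∈ KH (mv x j v t)} := by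
      show y₀ + (-c + t * k j) • v ∈ KH (mv x j v t)
      rw [mem_KH_mv]
      refine ⟨k, hk, ?_⟩
      rw [hc]; module
    have hz : (1 - ρ) • y₀ + ρ • y₁ = y₀ + (-(ρ * a)) • v := by
      rw [hy1']; module
    rw [hz]
    have hmid : -(ρ * a) ∈ Icc (-c + t * k j) (b + t * m j) := by
      constructor <;> rw [htdef] <;> nlinarith
    exact hoc.out hmemK hmemM hmid
  · intro z hz
    rw [mem_KH_mv] at hz
    obtain ⟨μ, hμ, rfl⟩ := hz
    refine ⟨∑ i, μ i • x i + (t₁ * μ j) • v, (mem_KH_mv _ _ _ _ _).2 ⟨μ, hμ, rfl⟩,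
      t₀ * μ j - t₁ * μ j, ?_⟩
    rw [sub_smul]; abel
  · intro z hz
    rw [mem_KH_mv] at hz
    obtain ⟨μ, hμ, rfl⟩ := hz
    refine ⟨∑ i, μ i • x i + (t₀ * μ j) • v, (mem_KH_mv _ _ _ _ _).2 ⟨μ, hμ, rfl⟩,
      t₀ * μ j - t₁ * μ j, ?_⟩
    rw [sub_smul]; abel

end Pool.Agent.Helper98.PN
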